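import Pool.Agent.W394.BQN.Stm2

set_option autoImplicit false

open Polynomial

noncomputable section

namespace Pool.Agent.W7.BQN

open Pool.Agent.W394.BQN

lemma dimLE {V : Type} [CommRing V] [IsDomain V] [IsPrincipalIdealRing V] (u : V[X])
    (hu : u.Monic) : Ring.KrullDimLE 1 (V[X] ⧸ Ideal.span {u}) := by
  set R := V[X] ⧸ Ideal.span {u} with hR
  set φ : V →+* R := (Ideal.Quotient.mk (Ideal.span {u})).comp (C : V →+* V[X]) with hφ
  have hint : φ.IsIntegral := hu.quotient_isIntegral (Ideal.mem_span_singleton_self u)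
  letI : Algebra V R := φ.toAlgebra
  haveI : Algebra.IsIntegral V R := ⟨hint⟩
  refine Ring.KrullDimLE.mk₁ fun I hI => ?_
  by_cases hJ : I.comap (algebraMap V R) = ⊥
  · left
    rw [minimalPrimes_eq_minimals]
    refine ⟨hI, fun I' hI' hle => ?_⟩
    haveI : I'.IsPrime := hI'
    by_contra hcon
    obtain ⟨x, hx, hx'⟩ := SetLike.not_le_iff_exists.1 hcon
    have hlt := Ideal.comap_lt_comap_of_integral_mem_sdiff (R := V) hle ⟨hx, hx'⟩
      (Algebra.IsIntegral.isIntegral x)
    rw [hJ] at hlt
    exact not_lt_bot hlt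
  · right
    haveI : I.IsPrime := hI
    have hp : (I.comap (algebraMap V R)).IsPrime := Ideal.comap_isPrime _ _
    have hmax : (I.comap (algebraMap V R)).IsMaximal := IsPrime.to_maximal_ideal hJ
    exact Ideal.isMaximal_of_isIntegral_of_isMaximal_comap (R := V) I hmax

lemma dimAt {R : Type} [CommRing R] [Ring.KrullDimLE 1 R] (n : Ideal R) [n.IsPrime] :
    ringKrullDim (Localization.AtPrime n) ≤ 1 := by
  rw [IsLocalization.AtPrime.ringKrullDim_eq_height n (Localization.AtPrime n)]
  refine (Ideal.height_le_ringKrullDim_of_ne_top (Ideal.IsPrime.ne_top inferInstance)).trans ?_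
  exact_mod_cast (Ring.krullDimLE_iff (n := 1)).1 inferInstance

theorem t_FAC (h : S_RD) : S_FAC := by
  intro V _ _ _ u hu hreg m hm hum
  haveI := hreg
  haveI hdim := dimLE u hu
  set R := V[X] ⧸ Ideal.span {u} with hR
  set π : V[X] →+* R := Ideal.Quotient.mk (Ideal.span {u}) with hπ
  have hπs : Function.Surjective π := Ideal.Quotient.mk_surjective
  have hker : ∀ x, π x = 0 ↔ u ∣ x := fun x => by
    rw [hπ, Ideal.Quotient.eq_zero_iff_mem, Ideal.mem_span_singleton]
  have hloc : ∀ (n : Ideal R) [n.IsPrime], IsDomain (Localization.AtPrime n) ∧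
      IsPrincipalIdealRing (Localization.AtPrime n) := fun n _ =>
    h (Localization.AtPrime n) (dimAt n)
  -- the prime factor
  have hu0 : u ≠ 0 := hu.ne_zero
  obtain ⟨f, hf, hfu⟩ := UniqueFactorizationMonoid.exists_prime_factors u hu0
  have hfm : f.prod ∈ m := by
    obtain ⟨c, hc⟩ := hfu.symm
    rw [← hc]
    exact Ideal.mul_mem_right _ _ hum
  obtain ⟨q, hqf, hqm⟩ := (hm.multiset_prod_mem_iff_exists_mem f).1 hfm
  have hqp : Prime q := hf q hqf
  have hqu : q ∣ u := (Multiset.dvd_prod hqf).trans hfu.dvd
  obtain ⟨w', hw'⟩ := hqu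
  have hlc : q.leadingCoeff * w'.leadingCoeff = 1 := by
    rw [← leadingCoeff_mul, ← hw']
    exact hu
  set u₁ : V[X] := C w'.leadingCoeff * q with hu₁
  set w : V[X] := C q.leadingCoeff * w' with hw
  have huw : u = u₁ * w := by
    rw [hu₁, hw, hw']
    have : C q.leadingCoeff * C w'.leadingCoeff = (1 : V[X]) := by
      rw [← C_mul, hlc, C_1]
    calc q * w' = (C q.leadingCoeff * C w'.leadingCoeff) * (q * w') := by rw [this, one_mul]
      _ = _ := by ring
  have hunit : IsUnit (C w'.leadingCoeff : V[X]) := by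
    rw [isUnit_C]
    exact IsUnit.of_mul_eq_one _ (by rw [mul_comm]; exact hlc)
  have hu₁m : u₁.Monic := by
    rw [Monic, hu₁, leadingCoeff_mul, leadingCoeff_C, mul_comm]
    exact hlc
  have hu₁p : Prime u₁ := by
    have : Associated q u₁ := by
      obtain ⟨c, hc⟩ := hunit
      exact ⟨c, by rw [hc, hu₁, mul_comm]⟩
    exact this.prime hqp
  have hu₁mem : u₁ ∈ m := Ideal.mul_mem_left _ _ hqm
  have hu₁0 : u₁ ≠ 0 := hu₁p.ne_zero
  have hw0 : w ≠ 0 := by
    intro h0
    rw [h0, mul_zero] at huw
    exact hu0 huw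
  refine ⟨u₁, w, huw, hu₁m, ?_, ?_⟩
  · -- the Dedekind property
    haveI hp : (Ideal.span {u₁} : Ideal V[X]).IsPrime :=
      (Ideal.span_singleton_prime hu₁0).2 hu₁p
    set D := V[X] ⧸ Ideal.span {u₁} with hD
    haveI : IsDomain D := Ideal.Quotient.isDomain _
    have hle : (Ideal.span {u} : Ideal V[X]) ≤ Ideal.span {u₁} := by
      rw [Ideal.span_singleton_le_span_singleton]
      exact ⟨w, huw⟩
    set ψ : R →+* D := Ideal.Quotient.factor hle with hψ
    have hψs : Function.Surjective ψ := Ideal.Quotient.factor_surjective hle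
    haveI : IsDedekindDomainDvr D := by
      refine { is_dvr_at_nonzero_prime := ?_ }
      intro P hP0 hP
      haveI : P.IsPrime := hP
      haveI : (P.comap ψ).IsPrime := Ideal.comap_isPrime _ _
      obtain ⟨h1, h2⟩ := hloc (P.comap ψ)
      haveI := h2
      have hs := RingHom.surjective_localRingHom_of_surjective ψ hψs P
      haveI : IsPrincipalIdealRing (Localization.AtPrime P) :=
        IsPrincipalIdealRing.of_surjective _ hs
      haveI : IsDomain (Localization.AtPrime P) :=
        IsLocalization.isDomain_localization P.primeCompl_le_nonZeroDivisors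
      have hnf : IsLocalRing.maximalIdeal (Localization.AtPrime P) ≠ ⊥ := by
        intro hbot
        apply hP0
        have e := IsLocalization.AtPrime.comap_maximalIdeal (Localization.AtPrime P) P
        rw [hbot] at e
        rw [← e]
        change Ideal.comap (algebraMap D (Localization.AtPrime P)) ⊥ = ⊥
        rw [← RingHom.ker_eq_comap_bot]
        exact (RingHom.injective_iff_ker_eq_bot _).1
          (IsLocalization.injective (Localization.AtPrime P) P.primeCompl_le_nonZeroDivisors)
      exact { not_a_field' := hnf }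
    infer_instance
  · -- the cofactor
    intro hwm
    have hkm : RingHom.ker π ≤ m := by
      intro x hx
      obtain ⟨c, hc⟩ := (hker x).1 hx
      rw [hc]
      exact Ideal.mul_mem_right _ _ hum
    set n : Ideal R := m.map π with hn
    haveI : n.IsPrime := Ideal.map_isPrime_of_surjective hπs hkm
    have hcomap : n.comap π = m := by
      rw [hn, Ideal.comap_map_of_surjective' π hπs, sup_eq_left]
      exact hkm
    obtain ⟨h1, h2⟩ := hloc n
    have hz : algebraMap R (Localization.AtPrime n) (π u₁) *
        algebraMap R (Localization.AtPrime n) (π w) = 0 := by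
      rw [← map_mul, ← map_mul, ← huw, (hker u).2 dvd_rfl, map_zero]
    have hlift : ∀ z : V[X], algebraMap R (Localization.AtPrime n) (π z) = 0 →
        ∃ s : V[X], s ∉ m ∧ u ∣ s * z := by
      intro z hz
      obtain ⟨c, hc⟩ := (IsLocalization.map_eq_zero_iff n.primeCompl _ _).1 hz
      obtain ⟨s, hs⟩ := hπs c.1
      refine ⟨s, ?_, ?_⟩
      · intro hsm
        apply c.2
        rw [← hs]
        exact Ideal.mem_map_of_mem π hsm
      · rw [← hker, map_mul, hs]
        exact hc
    rcases mul_eq_zero.1 hz with hz1 | hz1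
    · obtain ⟨s, hs, c, hc⟩ := hlift _ hz1
      apply hs
      have : s = w * c := by
        have e : u₁ * s = u₁ * (w * c) := by
          rw [← mul_assoc, ← huw, ← hc]; ring
        exact mul_left_cancel₀ hu₁0 e
      rw [this]
      exact Ideal.mul_mem_right _ _ hwm
    · obtain ⟨s, hs, c, hc⟩ := hlift _ hz1
      apply hs
      have : s = u₁ * c := by
        have e : w * s = w * (u₁ * c) := by
          rw [mul_comm w s, hc, huw]; ring
        exact mul_left_cancel₀ hw0 e
      rw [this]
      exact Ideal.mul_mem_right _ _ hu₁mem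

end Pool.Agent.W7.BQN
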